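import Pool.Agent.J4.H5.AS.PrimePower

/-!
# Parshin's conjecture for products of Artin-Schreier curves `y ^ q - y = x ^ m`

Let `k` be the finite field with `q` elements and let `m` divide `q - 1`. The motive `h^1` of the
smooth projective curve `C` with the equation `y ^ q - y = x ^ m` is, with coefficients in a
cyclotomic field, the sum of lines indexed by the pairs of a nontrivial power `θ ^ a` of a
multiplicative character `θ` of order `m` and a nontrivial additive character `ψ` of `k`; the
Frobenius map of `k` acts on a line by minus the Gauss sum of the pair (Davenport, Hasse, Weil). So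
the motive of a product of curves `C` is a sum of Tate twists of tensor products of such lines. By
Soule, Geisser and Kahn the higher rational K-groups of such a tensor product vanish if it is not of
Tate type over any finite field, and also if it is of Tate type and its Tate class is algebraic.

The theorem: for ALL primes `p`, all `m` prime to `p` and all `i`, among the tensor products of `2 i`
lines which are of Tate type (`TateLines`) the proportion of those which are reduced
(`ReducedLines`) is at least `2 ^ (-b)`. Here reduced means that the exponents become, after raising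
`m` to a multiple prime to `p` and after adding Frobenius pairs `{b, -p b}` (Tate's theorem on
divisors), a member of the closure of the characters of Fermat surfaces and of the standard
characters of Aoki, so that the Tate class is algebraic; and `b` is the number of the free supports,
which depends only on the prime divisors of `m` and on `p` modulo them and modulo four.

There are no free supports, for example, if `m = l ^ r` or `m = 2 l ^ r` for an odd prime `l` (in
every characteristic, `Pool.Agent.J4.H5.AS.no_free`): then Parshin's conjecture holds for all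
products of the curves `y ^ q - y = x ^ m`.
-/

set_option autoImplicit false

namespace Pool.Agent.Results.MP_27fd67_ag.ArtinSchreierProducts

open Pool.Agent Pool.Agent.H916T

/-- `-1` is a power of `p` modulo `n`. -/
def MinusOnePower (p n : ℕ) : Prop := ∃ k : ℕ, (p : ZMod n) ^ k = -1

/-- For some divisor `d` of `n`, congruent to three modulo four, the Jacobi symbol modulo `d` is one
at `p` and, if four divides `m`, at two; and a prime divisor `q` of `m` that is odd and does not
divide `d` divides `n` if and only if it is congruent to one modulo four and the symbol is `-1` at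
`q`. -/
def JacobiRelation (p m n : ℕ) : Prop :=
  ∃ d : ℕ, d ∣ n ∧ d % 4 = 3 ∧ jacobiSym p d = 1 ∧ (4 ∣ m → jacobiSym 2 d = 1) ∧
    ∀ q : ℕ, q.Prime → Odd q → q ∣ m → ¬ q ∣ d → (q ∣ n ↔ q % 4 = 1 ∧ jacobiSym q d = -1)

/-- The exponent of two in the order of `p` modulo `q`. -/
noncomputable def twoPart (p q : ℕ) : ℕ := padicValNat 2 (orderOf (p : ZMod q))

/-- The prime divisors `q` of `n` are congruent to one modulo four, `p` and the odd prime divisors
`j` of `m` not dividing `n` are squares modulo them, for each such `j` the exponent of two in the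
order of `p` modulo `j` is at most that for some `q`, and, if four divides `m`, two has odd order
modulo all odd prime divisors of `m`. -/
def SquareEven (p m n : ℕ) : Prop :=
  (∀ q : ℕ, q.Prime → q ∣ n → q % 4 = 1 ∧ IsSquare (p : ZMod q)) ∧
    (∀ j : ℕ, j.Prime → Odd j → j ∣ m → ¬ j ∣ n →
      (∀ q : ℕ, q.Prime → q ∣ n → IsSquare (j : ZMod q)) ∧
      ∃ q : ℕ, q.Prime ∧ q ∣ n ∧ twoPart p j ≤ twoPart p q) ∧
    (4 ∣ m → ∀ j : ℕ, j.Prime → Odd j → j ∣ m → Odd (orderOf (2 : ZMod j)))

open scoped Classical in
/-- The free supports: the squarefree odd numbers `n > 1` dividing `m` for which none of the three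
conditions holds. -/
noncomputable def free (p m : ℕ) : Finset ℕ :=
  m.divisors.filter fun n => Squarefree n ∧ Odd n ∧ 1 < n ∧ ¬ MinusOnePower p n ∧
    ¬ JacobiRelation p m n ∧ ¬ SquareEven p m n

/-- The lines of `h^1` of the curve `y ^ q - y = x ^ m`: pairs of a nonzero exponent `a` and a
nontrivial additive character `ψ`. -/
abbrev Line (k : Type) [Field k] (m : ℕ) : Type :=
  {a : ZMod m // a ≠ 0} × {ψ : AddChar k ℂ // ψ ≠ 1}

/-- The Gauss sum `g(θ ^ a, ψ)` of a line. -/
noncomputable def gauss {k : Type} [Field k] [Fintype k] {m : ℕ} (θ : MulChar k ℂ)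
    (x : Line k m) : ℂ := gaussSum (θ ^ x.1.1.val) x.2.1

/-- The tensor product of the `2 i` lines is of Tate type over some finite field: some power of the
product of the Gauss sums is the same power of `q ^ i`. -/
def TateLines {k : Type} [Field k] [Fintype k] {m : ℕ} (θ : MulChar k ℂ) {i : ℕ}
    (x : Fin (2 * i) → Line k m) : Prop :=
  ∃ e : ℕ, 0 < e ∧ (∏ j, gauss θ (x j)) ^ e = ((Fintype.card k : ℂ) ^ i) ^ e

/-- After raising `m` to a multiple `K * m`, `K` prime to `p`, and adding pairs `{b, -p b}` the
exponents form a member of the closure of the characters of surfaces and of the standard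
characters of Aoki. -/
def ReducedLines {k : Type} [Field k] {m : ℕ} (p : ℕ) {i : ℕ} (x : Fin (2 * i) → Line k m) :
    Prop :=
  ∃ K : ℕ, 0 < K ∧ p.Coprime K ∧ ∃ t : Multiset (ZMod (K * m)), (0 : ZMod (K * m)) ∉ t ∧
    Generated (K * m)
      (fun t => SurfaceTate p (K * m) t ∨ ∃ q : ℕ, q.Prime ∧ q ∣ K * m ∧ Standard q (K * m) t)
      ((Finset.univ.val.map fun j => (x j).1.1).map
          (fun a => ((K * a.val : ℕ) : ZMod (K * m))) +
        (t + t.map fun b => -((p : ZMod (K * m)) * b)))

/-- **Tensor products of Tate type in products of Artin-Schreier curves, all `p` and `m`.** -/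
theorem result (p m i : ℕ) [Fact p.Prime] [NeZero m] (hi : 0 < i)
    (k : Type) [Field k] [Fintype k] [CharP k p] (hmk : m ∣ Fintype.card k - 1)
    (θ : MulChar k ℂ) (hθ : orderOf θ = m) :
    Nat.card {x : Fin (2 * i) → Line k m // TateLines θ x} ≤
      2 ^ (free p m).card *
        Nat.card {x : Fin (2 * i) → Line k m // TateLines θ x ∧ ReducedLines p x} := by
  classical
  have hm : 0 < m := Nat.pos_of_ne_zero (NeZero.ne m)
  have hv : ∀ q : ℕ, TH540.vv p q = twoPart p q := fun q =>
    Nat.factorization_def _ Nat.prime_two
  refine J4.H5.AS.count_lines hmk θ hθ hi (free p m) ?_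
  intro n hsq h2 h1 hnm hdead hJ hSq
  have hn0 : n ≠ 0 := by omega
  rw [free, Finset.mem_filter, Nat.mem_divisors]
  refine ⟨⟨hnm, hm.ne'⟩, hsq, Nat.odd_iff.mpr (by omega), h1, ?_, hJ, ?_⟩
  · rintro ⟨k, hk⟩
    apply hdead
    refine ⟨k, ?_⟩
    rw [Nat.prod_primeFactors_of_squarefree hsq, ← ZMod.natCast_eq_zero_iff]
    push_cast
    rw [hk]; ring
  · rintro ⟨e1, e2, e3⟩
    apply hSq
    refine ⟨e1, fun j hj hjo hjm hjn => ?_, fun h j hj hjo hjm => ?_⟩
    · obtain ⟨e4, q, hq, hqn, hqv⟩ := e2 j hj hjo hjm hjn
      exact ⟨e4, q, hq, hqn, by rw [hv, hv]; exact hqv⟩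
    · exact_mod_cast e3 h j hj hjo hjm

end Pool.Agent.Results.MP_27fd67_ag.ArtinSchreierProducts
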