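import Pool.Agent.J4.H5.AS.Deg
import Pool.Agent.J4.H5.AS.PrimePower

/-!
# The Tate conjecture for products of Artin-Schreier curves `y ^ q - y = x ^ m`

Let `k` be the finite field with `q` elements and let `m` divide `q - 1`. The first cohomology of the
smooth projective curve with the equation `y ^ q - y = x ^ m` is the sum of lines indexed by the
pairs of a nontrivial power `θ ^ a` of the multiplicative character `θ` of order `m` and a nontrivial
additive character `ψ` of `k`, and the Frobenius map of `k` acts on a line by minus the Gauss sum of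
the pair (Davenport, Hasse, Weil). So the Tate classes of codimension `i` on the products of these
curves are, by the Kunneth formula, spanned over an algebraic closure of `k` by classes from the
tensor products of `2 i` such lines for which some power of the product of the Gauss sums is the
same power of `q ^ i`.

The theorem: let `m` be a power of ANY odd prime, or twice such a power; or let all prime divisors of
`m` lie in `{2, 3, 5}`, or in `{2, 3, 7}`, or in `{2, l}` for a prime `l` congruent to seven modulo
eight; or let four not divide `m` and all prime divisors lie in `{2, 3, 11}` or in `{2, 3, 13}`. There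
is no condition on the characteristic `p` (prime to `m`). For every such tensor product the exponents become, after raising
`m` to a multiple prime to `p` and after adding Frobenius pairs `{b, -p b}`, a member of the closure
of the characters of Fermat surfaces and of the standard characters of Aoki. The product of the two
Gauss sums of a Frobenius pair is `q` up to a root of unity, and this pair is a Tate class of
codimension one (Tate's theorem on divisors of products of curves).
-/

set_option autoImplicit false

namespace Pool.Agent.J4.H5.AtticArtinSchreierCurves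

open Pool.Agent Pool.Agent.H916T

/-- All prime divisors of `m` are `2`, `a` or `b`. -/
def PrimesIn (m a b : ℕ) : Prop := ∀ r : ℕ, r.Prime → r ∣ m → r = 2 ∨ r = a ∨ r = b

/-- The exponents: `m` is a power of an odd prime or twice such a power, or the prime divisors of `m`
lie in `{2, 3, 5}`, or in `{2, 3, 7}`, or in `{2, l}` for a prime `l` congruent to `7` modulo `8`, or
`4` does not divide `m` and they lie in `{2, 3, 11}` or in `{2, 3, 13}`. -/
def GoodExponent (m : ℕ) : Prop :=
  (∃ l r : ℕ, l.Prime ∧ l ≠ 2 ∧ (m = l ^ r ∨ m = 2 * l ^ r)) ∨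
    PrimesIn m 3 5 ∨ PrimesIn m 3 7 ∨ (∃ l : ℕ, l.Prime ∧ l % 8 = 7 ∧ PrimesIn m l l) ∨
    (¬ 4 ∣ m ∧ (PrimesIn m 3 11 ∨ PrimesIn m 3 13))

/-- The multiset of the entries of a tuple. -/
def entries {m n : ℕ} (a : Fin n → ZMod m) : Multiset (ZMod m) := Finset.univ.val.map a

/-- **The Tate conjecture for products of Artin-Schreier curves `y ^ q - y = x ^ m`.** -/
theorem result (p m : ℕ) [Fact p.Prime] [NeZero m] (k : Type) [Field k] [Fintype k] [CharP k p]
    (hm : GoodExponent m) (hmk : m ∣ Fintype.card k - 1) (θ : MulChar k ℂ) (hθ : orderOf θ = m)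
    (i : ℕ) (hi : 0 < i) (a : Fin (2 * i) → ZMod m) (ha : ∀ j, a j ≠ 0)
    (ψ : Fin (2 * i) → AddChar k ℂ) (hψ : ∀ j, ψ j ≠ 1) (e : ℕ) (he : 0 < e)
    (h : (∏ j, gaussSum (θ ^ (a j).val) (ψ j)) ^ e = ((Fintype.card k : ℂ) ^ i) ^ e) :
    ∃ K : ℕ, 0 < K ∧ p.Coprime K ∧ ∃ t : Multiset (ZMod (K * m)), (0 : ZMod (K * m)) ∉ t ∧
      Generated (K * m)
        (fun t => SurfaceTate p (K * m) t ∨ ∃ q : ℕ, q.Prime ∧ q ∣ K * m ∧ Standard q (K * m) t)
        ((entries a).map (fun x => ((K * x.val : ℕ) : ZMod (K * m))) +
          (t + t.map fun b => -((p : ZMod (K * m)) * b))) := by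
  have hp : p.Prime := Fact.out
  have hm0 : 0 < m := Nat.pos_of_ne_zero (NeZero.ne m)
  obtain ⟨hpm, hrel⟩ := J4.H5.AS.rel_of_tuple hmk θ hθ i a ha ψ hψ e he hi h
  have hcard : Multiset.card (entries a) = 2 * i := by
    rw [entries, Multiset.card_map]
    simp
  have h0 : (0 : ZMod m) ∉ entries a := by
    intro h0
    obtain ⟨j, -, hj⟩ := Multiset.mem_map.mp h0
    exact ha j hj
  have hev : Even (Multiset.card (entries a)) := by
    rw [hcard]; exact ⟨i, by omega⟩
  have hne : entries a ≠ 0 := by
    intro h0
    rw [h0, Multiset.card_zero] at hcard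
    omega
  rcases hm with ⟨l, r, hl, hl2, hm⟩ | hm
  · exact J4.H5.AS.gen2_of_free hp hm0 hpm h0 hev hne hrel fun n e1 e2 e3 e4 e5 e6 e7 =>
      absurd (J4.H5.AS.no_free hp hpm hl hl2 hm n e1 e2 e3 e4 e5 e6 e7) id
  refine J4.H5.AS.gen2_deg hp hm0 hpm ?_ h0 hev hne hrel
  rcases hm with h | h | ⟨q, hq, hq7, h⟩ | h
  · exact Or.inl h
  · exact Or.inr (Or.inl h)
  · exact Or.inr (Or.inr (Or.inl ⟨q, hq, hq7, fun r hr hrM =>
      (h r hr hrM).imp id (fun h' => h'.elim id id)⟩))
  · exact Or.inr (Or.inr (Or.inr h))

end Pool.Agent.J4.H5.AtticArtinSchreierCurves
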