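import Pool.Agent.J4.H5.FP.Cnt

/-!
# A positive proportion of the Tate classes on every Fermat variety over a finite field is algebraic

Let `m` be prime to the prime `p`. The Tate classes on the Fermat variety
`x_0 ^ m + ... + x_(2N-1) ^ m = 0` of dimension `2 N - 2` over an algebraic closure of the field with
`p` elements are spanned, apart from the power of the hyperplane class, by the lines of the Tate
characters (`IsTate`) with `2 N` entries, by the theorems of Weil and Stickelberger. The line of a
Tate character which becomes, after raising the degree to a multiple prime to `p`, a member of the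
closure of the characters of surfaces and of the standard characters of Aoki is algebraic (Tate's
theorem on divisors for products of curves, Shioda and Katsura, Aoki).

The theorem: for ALL primes `p`, all degrees `m` prime to `p` and all dimensions, at least the
proportion `2 ^ (-b)` of the Tate characters is of this kind. Here `b` is the number of the
squarefree odd numbers `n > 1` dividing `m` such that `-1` is not a power of `p` modulo `n`, there is
no relation with smallest support `n` given by a Jacobi symbol, and squares modulo the prime divisors
of `n` do not force an even number of entries whose orders have the prime divisors of `n`. In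
particular `b` depends only on the prime divisors of `m` and on `p` modulo them and modulo four, and
`b < 2 ^ r`, if `r` is the number of the odd primes dividing `m`.

The proof: the lines with even parities at all supports are algebraic (the parity criterion of the
starting library). Every Jacobi symbol which is odd and trivial on `p` gives a linear relation between
the parities at the supports, also if it is not trivial on the primes dividing `m`. So the parities
at the `b` free supports determine all parities which matter; and among all closed walks with given
parities those with even parities are the most frequent ones.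
-/

set_option autoImplicit false

namespace Pool.Agent.J4.H5.AtticFermatProportion

open Pool.Agent Pool.Agent.H916T

/-- `-1` is a power of `p` modulo `n`. -/
def MinusOnePower (p n : ℕ) : Prop := ∃ k : ℕ, (p : ZMod n) ^ k = -1

/-- For some divisor `d` of `n`, congruent to three modulo four, the Jacobi symbol modulo `d` is one
at `p` and, if four divides `m`, at two; and a prime divisor `q` of `m` that is odd and does not
divide `d` divides `n` if and only if it is congruent to one modulo four and the symbol is `-1` at
`q`. -/
def JacobiRelation (p m n : ℕ) : Prop :=
  ∃ d : ℕ, d ∣ n ∧ d % 4 = 3 ∧ jacobiSym p d = 1 ∧ (4 ∣ m → jacobiSym 2 d = 1) ∧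
    ∀ q : ℕ, q.Prime → Odd q → q ∣ m → ¬ q ∣ d → (q ∣ n ↔ q % 4 = 1 ∧ jacobiSym q d = -1)

/-- The exponent of two in the order of `p` modulo `q`. -/
noncomputable def twoPart (p q : ℕ) : ℕ := padicValNat 2 (orderOf (p : ZMod q))

/-- The prime divisors `q` of `n` are congruent to one modulo four, `p` and the odd prime divisors
`j` of `m` not dividing `n` are squares modulo them, for each such `j` the exponent of two in the
order of `p` modulo `j` is at most that for some `q`, and, if four divides `m`, two has odd order
modulo all odd prime divisors of `m`. -/
def SquareEven (p m n : ℕ) : Prop :=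
  (∀ q : ℕ, q.Prime → q ∣ n → q % 4 = 1 ∧ IsSquare (p : ZMod q)) ∧
    (∀ j : ℕ, j.Prime → Odd j → j ∣ m → ¬ j ∣ n →
      (∀ q : ℕ, q.Prime → q ∣ n → IsSquare (j : ZMod q)) ∧
      ∃ q : ℕ, q.Prime ∧ q ∣ n ∧ twoPart p j ≤ twoPart p q) ∧
    (4 ∣ m → ∀ j : ℕ, j.Prime → Odd j → j ∣ m → Odd (orderOf (2 : ZMod j)))

open scoped Classical in
/-- The free supports: the squarefree odd numbers `n > 1` dividing `m` for which none of the three
conditions holds. -/
noncomputable def free (p m : ℕ) : Finset ℕ :=
  m.divisors.filter fun n => Squarefree n ∧ Odd n ∧ 1 < n ∧ ¬ MinusOnePower p n ∧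
    ¬ JacobiRelation p m n ∧ ¬ SquareEven p m n

/-- The multiset of the entries of a tuple. -/
def entries {m k : ℕ} (a : Fin k → ZMod m) : Multiset (ZMod m) := Finset.univ.val.map a

/-- After raising the degree to a suitable multiple `K * m`, `K` prime to `p`, the character is a
member of the closure of the characters of surfaces and of the standard characters of Aoki. -/
def GeneratedLater (p m : ℕ) (s : Multiset (ZMod m)) : Prop :=
  ∃ K : ℕ, 0 < K ∧ p.Coprime K ∧
    Generated (K * m)
      (fun t => SurfaceTate p (K * m) t ∨ ∃ q : ℕ, q.Prime ∧ q ∣ K * m ∧ Standard q (K * m) t)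
      (s.map fun a => ((K * a.val : ℕ) : ZMod (K * m)))

/-- **A positive proportion of the Tate classes on every Fermat variety in characteristic `p`.** -/
theorem result (p m N : ℕ) (hp : p.Prime) (hm : 0 < m) (hpm : p.Coprime m) (hN : 0 < N) :
    Nat.card {a : Fin (2 * N) → ZMod m // IsTate p m (entries a)} ≤
      2 ^ (free p m).card * Nat.card {a : Fin (2 * N) → ZMod m //
        IsTate p m (entries a) ∧ GeneratedLater p m (entries a)} := by
  classical
  have hv : ∀ q : ℕ, TH540.vv p q = twoPart p q := fun q =>
    Nat.factorization_def _ Nat.prime_two
  refine J4.H5.FP.count_le hp hm hpm hN (free p m) ?_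
  intro n hsq h2 h1 hnm hdead hJ hSq
  have hn0 : n ≠ 0 := by omega
  rw [free, Finset.mem_filter, Nat.mem_divisors]
  refine ⟨⟨hnm, hm.ne'⟩, hsq, Nat.odd_iff.mpr (by omega), h1, ?_, hJ, ?_⟩
  · rintro ⟨k, hk⟩
    apply hdead
    refine ⟨k, ?_⟩
    rw [Nat.prod_primeFactors_of_squarefree hsq, ← ZMod.natCast_eq_zero_iff]
    push_cast
    rw [hk]; ring
  · rintro ⟨e1, e2, e3⟩
    apply hSq
    refine ⟨e1, fun j hj hjo hjm hjn => ?_, fun h j hj hjo hjm => ?_⟩
    · obtain ⟨e4, q, hq, hqn, hqv⟩ := e2 j hj hjo hjm hjn
      exact ⟨e4, q, hq, hqn, by rw [hv, hv]; exact hqv⟩
    · exact_mod_cast e3 h j hj hjo hjm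

end Pool.Agent.J4.H5.AtticFermatProportion
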